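import Mathlib
import Pool.Agent.H90.HerC
import Pool.Agent.H90.HerDefs2

namespace Pool.Agent.Results.MP_b18d32_an.Exists

open Pool.Agent.H90 Pool.Agent.H90.Her2

lemma iff_her (A : Type) [NonUnitalCStarAlgebra A] : Hereditary A ↔ Her.Hereditary A := by
  constructor
  · intro h L hcl hL X Y _ _ _ _ _ _ aX aY hX hY σ hσ ⟨s, hs⟩ φ hφ
    let mk : ∀ (Z : Type) [NormedAddCommGroup Z] [NormedSpace ℂ Z] [CompleteSpace Z]
        (a : A →ₗ[ℂ] Z →ₗ[ℂ] Z), Her.IsAct a → BMod A := fun Z _ _ _ a ha =>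
      { X := Z, cpl := inferInstance, act := fun x y => a x y, add_l := by simp, smul_l := by simp,
        add_r := by simp, smul_r := by simp, mul_act := ha.1, bound := ha.2 }
    obtain ⟨ψ, h1, h2⟩ := h ⟨L, hcl, hL⟩ (mk X aX hX) (mk Y aY hY) σ ⟨σ.isBoundedLinearMap, hσ⟩
      ⟨s, s.isBoundedLinearMap, hs⟩ φ ⟨φ.isBoundedLinearMap, hφ⟩
    exact ⟨IsBoundedLinearMap.toContinuousLinearMap ψ h1.1, h1.2, h2⟩
  · intro h I X Y σ hσ ⟨s, hs, hs'⟩ φ hφ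
    have := X.cpl
    have := Y.cpl
    obtain ⟨ψ, h1, h2⟩ := h I.L I.closed I.mul_mem X.X Y.X
      (LinearMap.mk₂ ℂ X.act X.add_l X.smul_l X.add_r X.smul_r)
      (LinearMap.mk₂ ℂ Y.act Y.add_l Y.smul_l Y.add_r Y.smul_r) ⟨X.mul_act, X.bound⟩
      ⟨Y.mul_act, Y.bound⟩ (IsBoundedLinearMap.toContinuousLinearMap σ hσ.1) hσ.2
      ⟨IsBoundedLinearMap.toContinuousLinearMap s hs, hs'⟩
      (IsBoundedLinearMap.toContinuousLinearMap φ hφ.1) hφ.2
    exact ⟨ψ, ⟨ψ.isBoundedLinearMap, h1⟩, h2⟩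

theorem result : ∃ (A : Type) (_ : NonUnitalCStarAlgebra A), ¬ Hereditary A ∧
    ∀ C : CommSub A, Hereditary C.T := by
  refine ⟨Her.AA, inferInstance, fun h => Her.not_hered ((iff_her _).1 h), fun C => ?_⟩
  have : TopologicalSpace.SeparableSpace C.T := Her.comm_sep C.S C.comm
  exact (iff_her _).2 (Her.hered_of_sep C.T (fun x y => Subtype.ext (C.comm x.1 x.2 y.1 y.2)))

end Pool.Agent.Results.MP_b18d32_an.Exists
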